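import Pool.Agent.Helper66_D1.Stmts
import Pool.Agent.Helper96_BN.BC4
import Pool.Agent.Helper66_BN.Co3

/-!
# Squad PP, part D1, module C4D: the scalars of the counting lemma agree
-/

open scoped BigOperators

set_option autoImplicit false

noncomputable section

namespace Pool.Agent.PP.D1.H76

open Pool.Agent.PP Pool.Agent.Helper51_AWC Pool.Agent.Helper79_WRA Pool.Agent.PP.BN.H66

section

variable {F : Type} [Field F] {G : Type} [Group G] {N P : Subgroup G} [N.Normal] {n m : ℕ}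
  {σ : N →* Matrix (Fin n) (Fin n) F}
  {κ : N.subgroupOf (Subgroup.normalizer (P : Set G)) →* Matrix (Fin m) (Fin m) F}
  {π : (Fin n → F) →ₗ[F] (Fin m → F)}

omit [N.Normal] in
theorem mrep_eq (g : N) (v : Fin n → F) : mrep σ g v = (σ g).mulVec v := rfl

theorem imp_inv {x : G} (X : (Matrix (Fin n) (Fin n) F)ˣ)
    (hX : Helper58_CL.Imp σ x (X : Matrix (Fin n) (Fin n) F)) :
    Helper58_CL.Imp σ x⁻¹ ((X⁻¹ : (Matrix (Fin n) (Fin n) F)ˣ) : Matrix (Fin n) (Fin n) F) := by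
  refine ⟨(X⁻¹).isUnit, fun g => ?_⟩
  have h1 := hX.eq (MulAut.conjNormal x⁻¹ g)
  have h2 : MulAut.conjNormal x (MulAut.conjNormal x⁻¹ g) = g := by
    apply Subtype.ext
    simp only [MulAut.conjNormal_apply]
    group
  rw [h2] at h1
  calc (X⁻¹).val * σ g = (X⁻¹).val * (σ g * X) * (X⁻¹).val := by
        rw [mul_assoc, mul_assoc, Units.mul_inv, mul_one]
    _ = (X⁻¹).val * (X * σ (MulAut.conjNormal x⁻¹ g)) * (X⁻¹).val := by rw [h1]
    _ = σ (MulAut.conjNormal x⁻¹ g) * (X⁻¹).val := by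
        rw [← mul_assoc (X⁻¹).val, Units.inv_mul, one_mul]

/-- implementers preserve the fixed points -/
theorem imp_fix (x : Subgroup.normalizer (P : Set G)) {X : Matrix (Fin n) (Fin n) F}
    (hX : Helper58_CL.Imp σ (x : G) X) (v : Fin n → F)
    (hv : v ∈ fixV (mrep σ) (P.subgroupOf N)) :
    X.mulVec v ∈ fixV (mrep σ) (P.subgroupOf N) := by
  intro p hp
  have h1 := ((cjU N P x).symm ⟨p, hp⟩).2
  have h2 : MulAut.conjNormal (x : G) (((cjU N P x).symm ⟨p, hp⟩ : P.subgroupOf N) : N) = p := by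
    rw [← cjU_coe, Equiv.apply_symm_apply]
  have h3 := hX.eq (((cjU N P x).symm ⟨p, hp⟩ : P.subgroupOf N) : N)
  rw [h2] at h3
  have h4 := hv _ h1
  rw [mrep_eq] at h4 ⊢
  rw [Matrix.mulVec_mulVec, ← h3, ← Matrix.mulVec_mulVec, h4]

/-- implementers preserve the image of the norm -/
theorem imp_nrm [Finite G] (x : Subgroup.normalizer (P : Set G)) {X : Matrix (Fin n) (Fin n) F}
    (hX : Helper58_CL.Imp σ (x : G) X) (v : Fin n → F)
    (hv : v ∈ nrmV (mrep σ) (P.subgroupOf N)) :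
    X.mulVec v ∈ nrmV (mrep σ) (P.subgroupOf N) := by
  classical
  have := Fintype.ofFinite (P.subgroupOf N)
  obtain ⟨w, rfl⟩ := hv
  refine ⟨X.mulVec w, ?_⟩
  rw [finsum_eq_sum_of_fintype, LinearMap.sum_apply, LinearMap.sum_apply, Matrix.mulVec_sum]
  rw [← Equiv.sum_comp (cjU N P x) (fun p : P.subgroupOf N => mrep σ p (X.mulVec w))]
  refine Finset.sum_congr rfl (fun p _ => ?_)
  rw [cjU_coe, mrep_eq, mrep_eq, Matrix.mulVec_mulVec, Matrix.mulVec_mulVec, hX.eq]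

/-- the induced matrix -/
theorem induced [Finite G]
    (hV : HV (jN N (Subgroup.normalizer (P : Set G))) (P.subgroupOf N) κ (mrep σ) π)
    (x : Subgroup.normalizer (P : Set G)) {X : Matrix (Fin n) (Fin n) F}
    (hX : Helper58_CL.Imp σ (x : G) X) :
    ∃ X' : Matrix (Fin m) (Fin m) F, ∀ v ∈ fixV (mrep σ) (P.subgroupOf N),
      π (X.mulVec v) = X'.mulVec (π v) := by
  have hsur : Function.Surjective (π.domRestrict (fixV (mrep σ) (P.subgroupOf N))) := by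
    intro w
    obtain ⟨v, hv, h⟩ := hV.sur w
    exact ⟨⟨v, hv⟩, h⟩
  obtain ⟨s, hs⟩ := LinearMap.exists_rightInverse_of_surjective
    (π.domRestrict (fixV (mrep σ) (P.subgroupOf N))) (LinearMap.range_eq_top.2 hsur)
  have hs' : ∀ w, π ((s w : fixV (mrep σ) (P.subgroupOf N)) : Fin n → F) = w := by
    intro w
    exact LinearMap.congr_fun hs w
  let f : (Fin m → F) →ₗ[F] (Fin m → F) :=
    π ∘ₗ X.mulVecLin ∘ₗ (Submodule.subtype _) ∘ₗ s
  refine ⟨LinearMap.toMatrix' f, fun v hv => ?_⟩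
  have h1 : (LinearMap.toMatrix' f).mulVec (π v) = f (π v) := by
    rw [← Matrix.toLin'_apply, Matrix.toLin'_toMatrix']
  rw [h1]
  show π (X.mulVec v) = π (X.mulVec ((s (π v) : fixV (mrep σ) (P.subgroupOf N)) : Fin n → F))
  have h2 : v - ((s (π v) : fixV (mrep σ) (P.subgroupOf N)) : Fin n → F) ∈
      fixV (mrep σ) (P.subgroupOf N) := Submodule.sub_mem _ hv (s (π v)).2
  have h3 : π (v - ((s (π v) : fixV (mrep σ) (P.subgroupOf N)) : Fin n → F)) = 0 := by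
    rw [map_sub, hs', sub_self]
  have h4 := imp_nrm x hX _ ((hV.ker _ h2).1 h3)
  have h5 := (hV.ker _ (imp_fix x hX _ h2)).2 h4
  rw [Matrix.mulVec_sub, map_sub, sub_eq_zero] at h5
  exact h5

/-- elements of `N ∩ N_G(P)` preserve the fixed points -/
theorem fix_j (a : N.subgroupOf (Subgroup.normalizer (P : Set G))) (v : Fin n → F)
    (hv : v ∈ fixV (mrep σ) (P.subgroupOf N)) :
    (σ (jN N (Subgroup.normalizer (P : Set G)) a)).mulVec v ∈ fixV (mrep σ) (P.subgroupOf N) := by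
  have h := Helper58_CL.Imp.coe (ρ := σ) (jN N (Subgroup.normalizer (P : Set G)) a)
  exact imp_fix (a : Subgroup.normalizer (P : Set G)) h v hv

theorem conj_j (x : Subgroup.normalizer (P : Set G))
    (a : N.subgroupOf (Subgroup.normalizer (P : Set G))) :
    ((MulAut.conjNormal (x : G) : N ≃* N) (jN N (Subgroup.normalizer (P : Set G)) a) : N) =
      jN N (Subgroup.normalizer (P : Set G)) (MulAut.conjNormal x a) := by
  apply Subtype.ext
  simp only [MulAut.conjNormal_apply, jN, MonoidHom.coe_mk, OneHom.coe_mk, Subgroup.coe_mul,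
    InvMemClass.coe_inv]

/-- the induced matrix implements -/
theorem induced_imp [Finite G]
    (hV : HV (jN N (Subgroup.normalizer (P : Set G))) (P.subgroupOf N) κ (mrep σ) π)
    (x : Subgroup.normalizer (P : Set G)) {X : Matrix (Fin n) (Fin n) F}
    (hX : Helper58_CL.Imp σ (x : G) X) {X' : Matrix (Fin m) (Fin m) F}
    (hX' : ∀ v ∈ fixV (mrep σ) (P.subgroupOf N), π (X.mulVec v) = X'.mulVec (π v)) :
    IsUnit X' ∧ ∀ a : N.subgroupOf (Subgroup.normalizer (P : Set G)),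
      X' * κ a = κ (MulAut.conjNormal x a) * X' := by
  constructor
  · obtain ⟨U, hU⟩ := hX.unit
    have hUX : Helper58_CL.Imp σ (x : G) (U : Matrix (Fin n) (Fin n) F) := by rw [hU]; exact hX
    have hi := imp_inv U hUX
    have hi' : Helper58_CL.Imp σ ((x⁻¹ : Subgroup.normalizer (P : Set G)) : G)
        ((U⁻¹ : (Matrix (Fin n) (Fin n) F)ˣ) : Matrix (Fin n) (Fin n) F) := hi
    obtain ⟨Z, hZ⟩ := induced hV x⁻¹ hi'
    have h1 : X' * Z = 1 := by
      apply Matrix.mulVec_injective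
      funext w
      obtain ⟨v, hv, rfl⟩ := hV.sur w
      rw [← Matrix.mulVec_mulVec, ← hZ v hv, ← hX' _ (imp_fix x⁻¹ hi' v hv), ← hU,
        Matrix.mulVec_mulVec, Units.mul_inv, Matrix.one_mulVec, Matrix.one_mulVec]
    exact IsUnit.of_mul_eq_one _ h1
  · intro a
    apply Matrix.mulVec_injective
    funext w
    obtain ⟨v, hv, rfl⟩ := hV.sur w
    have h1 := hV.int a v hv
    have h2 := hV.int (MulAut.conjNormal x a) (X.mulVec v) (imp_fix x hX v hv)
    rw [mrep_eq] at h1 h2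
    rw [← Matrix.mulVec_mulVec, ← h1, ← hX' _ (fix_j a v hv), Matrix.mulVec_mulVec, hX.eq,
      conj_j, ← Matrix.mulVec_mulVec, h2, hX' v hv, Matrix.mulVec_mulVec]

end

/-- C4D. -/
theorem c4d : C4dStmt := by
  intro ℓ _ F _ hF G _ _ N P _ hPN φ θ hcor x y hk hx hy hθx hθy
  obtain ⟨n, σ, m, κ, π, hσ, htr, hκ, htrκ, hV⟩ := hcor
  have hφ : φ ∈ IBr F N := ⟨n, σ, hσ, htr.symm⟩
  have hθ : θ ∈ IBr F (N.subgroupOf (Subgroup.normalizer (P : Set G))) := ⟨m, κ, hκ, htrκ.symm⟩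
  have hk' : (x : G) * y * (x : G)⁻¹ * (y : G)⁻¹ ∈ N := hk
  obtain ⟨X, hX⟩ := Helper58_CL.exists_imp Pool.Agent.PP.H20.ibc hF hσ (x := (x : G)) (by
    rw [htr]; exact hx)
  obtain ⟨Y, hY⟩ := Helper58_CL.exists_imp Pool.Agent.PP.H20.ibc hF hσ (x := (y : G)) (by
    rw [htr]; exact hy)
  obtain ⟨c, hc, he⟩ := Helper58_CL.exists_scalar hσ hX hY hk'
  obtain ⟨X', hX'⟩ := induced hV x hX
  obtain ⟨Y', hY'⟩ := induced hV y hY
  obtain ⟨uX, iX⟩ := induced_imp hV x hX hX'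
  obtain ⟨uY, iY⟩ := induced_imp hV y hY hY'
  have hrel : X' * Y' = c • (κ ⟨x * y * x⁻¹ * y⁻¹, hk⟩ * Y' * X') := by
    apply Matrix.mulVec_injective
    funext w
    obtain ⟨v, hv, rfl⟩ := hV.sur w
    have h1 := hV.int ⟨x * y * x⁻¹ * y⁻¹, hk⟩ (Y.mulVec (X.mulVec v))
      (imp_fix y hY _ (imp_fix x hX v hv))
    rw [mrep_eq] at h1
    have h2 : jN N (Subgroup.normalizer (P : Set G)) ⟨x * y * x⁻¹ * y⁻¹, hk⟩ =
      ⟨(x : G) * y * (x : G)⁻¹ * (y : G)⁻¹, hk'⟩ := rfl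
    rw [h2] at h1
    rw [← Matrix.mulVec_mulVec, ← hY' v hv, ← hX' _ (imp_fix y hY v hv), Matrix.mulVec_mulVec, he,
      Matrix.smul_mulVec, Matrix.smul_mulVec, map_smul, ← Matrix.mulVec_mulVec,
      ← Matrix.mulVec_mulVec, h1, hY' _ (imp_fix x hX v hv), hX' v hv, Matrix.mulVec_mulVec,
      Matrix.mulVec_mulVec, mul_assoc]
  have h8 : IsTC N φ (x : G) (y : G) c :=
    ⟨n, σ, X, Y, hk', hσ, htr, hX.unit, hY.unit, hX.eq, hY.eq, he⟩
  have h8' : IsTC (N.subgroupOf (Subgroup.normalizer (P : Set G))) θ x y c :=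
    ⟨m, κ, X', Y', hk, hκ, htrκ, uX, uY, iX, iY, hrel⟩
  obtain ⟨-, -, h9⟩ := Helper58_CL.clu Pool.Agent.PP.H20.ibc ℓ F hF G N φ hφ x y hk' hx hy
  obtain ⟨-, -, h10⟩ := Helper58_CL.clu Pool.Agent.PP.H20.ibc ℓ F hF _
    (N.subgroupOf (Subgroup.normalizer (P : Set G))) θ hθ x y hk hθx hθy
  rw [← h9 _ h8]
  exact h10 _ h8'

end Pool.Agent.PP.D1.H76
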